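import Pool.Agent.Y134.PG.Defs

/-!
# The product of a zeta function modulo `p` with a system of Frobenius eigenvalues
-/

set_option autoImplicit false

namespace Pool.Agent.Y134.TA

open Polynomial Pool.Agent.Y134.PG

/-- The polynomial `∏ H(y T)`, the product over the roots `y` of `R` in `k`. -/
noncomputable def tensPoly (k : Type) [Field k] {p : ℕ} [CharP k p] (H : (ZMod p)[X])
    (R : ℤ[X]) : k[X] :=
  ((R.map (Int.castRingHom k)).roots.map fun y =>
    (H.map (ZMod.castHom (dvd_refl p) k)).comp (C y * X)).prod

/-- The `n`-th power of `Φ_M(Q T)` divides `∏ H(y T)`, the product over the roots `y` of `R`, over the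
algebraically closed fields of characteristic `p`. -/
def CycDvd {p : ℕ} (H : (ZMod p)[X]) (R : ℤ[X]) (Q M n : ℕ) : Prop :=
  ∀ (k : Type) [Field k] [IsAlgClosed k] [CharP k p], cyc k (Q : k) M ^ n ∣ tensPoly k H R

end Pool.Agent.Y134.TA
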