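import Pool.Agent.Y134.TA.Mult
import Pool.Agent.Y134.CH.SS

/-!
# Tate classes on the product
-/

set_option autoImplicit false

namespace Pool.Agent.Y134.TA

open Finset Polynomial TensorProduct Pool.Agent.Y134.PG Pool.Agent.Y134.CH Pool.Agent.Y134.Prod
  Pool.Agent.W528.HS Pool.Agent.Y134.Cyc Module

section
variable {E : Type} [Field E] [CharZero E] [IsAlgClosed E] {G : Type} [Group G] [Finite G]
  {V : Type} [AddCommGroup V] [Module E V] [FiniteDimensional E V]
  {Y : Type} [AddCommGroup Y] [Module E Y] [FiniteDimensional E Y]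

lemma finrank_part (σ : Representation E G V) {φ : Module.End E V}
    (hφ : ∀ g, φ * σ g = σ g * φ) (Ψ : Module.End E Y) (K : Subgroup G) (χ : K →* Eˣ) (α : E) :
    finrank E ((onPart (onFirst σ Y) (TensorProduct.map φ Ψ) (map_comm hφ Ψ) K χ).maxGenEigenspace
      α) = finrank E (Module.End.maxGenEigenspace (TensorProduct.map (onPart σ φ hφ K χ) Ψ) α) := by
  classical
  rw [LinearMap.finrank_maxGenEigenspace_eq, LinearMap.finrank_maxGenEigenspace_eq, ← count_roots,
    ← count_roots, roots_part, roots_tensor]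

variable (σ : Representation E G V) {φ : Module.End E V} (hφ : ∀ g, φ * σ g = σ g * φ)
  {ι : Type} (K : ι → Subgroup G) (χ : ∀ i, K i →* Eˣ)
  (hdet : ∀ R : Submodule E V, R ≠ ⊥ → (∀ g, ∀ v ∈ R, σ g v ∈ R) →
    (R ⊓ σ.invariants : Submodule E V) = ⊥ →
      ∃ i, (R ⊓ charPart σ (K i) (χ i) : Submodule E V) ≠ ⊥)
  (p s : ι → ℕ) (μ : ι → E) (hp : ∀ i, (p i).Prime) (hμ : ∀ i, IsPrimitiveRoot (μ i) (p i ^ s i))
  (H : ∀ i, (ZMod (p i))[X]) (hcore : ∀ i, Core (onPart σ φ hφ (K i) (χ i)) (p i) (μ i) (H i))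
  (Ψ : Module.End E Y) (R : ℤ[X]) (hR : Ψ.charpoly = R.map (Int.castRingHom E))
  {Q : ℕ} (hQ : Q ≠ 0) {n : ℕ} (hn : 1 ≤ n)

include hdet hp hμ hcore hR hQ hn

theorem gen_le (he : ∀ i M, M ∣ n → ¬ p i ∣ M → ¬ CycDvd (H i) R Q M 1) (α : E)
    (hα : α ^ n = (Q : E) ^ n) :
    Module.End.maxGenEigenspace (TensorProduct.map φ Ψ) α ≤ (onFirst σ Y).invariants := by
  refine transfer_zero (onFirst σ Y) (TensorProduct.map φ Ψ) (map_comm hφ Ψ) K χ
    (detects_tensor σ K χ hdet) _ (maxGen_stable _ _ (map_comm hφ Ψ) α) fun i => ?_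
  refine inf_part_eq_bot _ _ (map_comm hφ Ψ) (K i) (χ i) _ ?_
  rw [finrank_part σ hφ Ψ]
  have h1 := mult_tensor (hp i) (hμ i) (hcore i) Ψ R hR hQ hn (e := 0) (he i) hα
  omega

theorem semi (he : ∀ i M, M ∣ n → ¬ p i ∣ M → ¬ CycDvd (H i) R Q M 2) (α : E)
    (hα : α ^ n = (Q : E) ^ n) :
    Module.End.maxGenEigenspace (TensorProduct.map φ Ψ) α
        = Module.End.eigenspace (TensorProduct.map φ Ψ) α ↔
      (Module.End.maxGenEigenspace (TensorProduct.map φ Ψ) α ⊓ (onFirst σ Y).invariants :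
        Submodule E (V ⊗[E] Y)) ≤ Module.End.eigenspace (TensorProduct.map φ Ψ) α := by
  constructor
  · intro h
    rw [h]
    exact inf_le_left
  · refine transfer (onFirst σ Y) (TensorProduct.map φ Ψ) (map_comm hφ Ψ) K χ
      (detects_tensor σ K χ hdet) α fun i => ?_
    rw [finrank_part σ hφ Ψ]
    exact mult_tensor (hp i) (hμ i) (hcore i) Ψ R hR hQ hn (e := 1) (he i) hα

/-- The Tate classes over the extension of degree `n`. -/
theorem tate_le (he : ∀ i M, M ∣ n → ¬ p i ∣ M → ¬ CycDvd (H i) R Q M 1) (v : V ⊗[E] Y)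
    (hv : (TensorProduct.map φ Ψ ^ n : Module.End E (V ⊗[E] Y)) v = (Q : E) ^ n • v) :
    v ∈ (onFirst σ Y).invariants := by
  set f : Module.End E (V ⊗[E] Y) := TensorProduct.map φ Ψ with hf
  have hfg : ∀ g, f * onFirst σ Y g = onFirst σ Y g * f := map_comm hφ Ψ
  have hmem : ∀ w, w ∈ (f ^ n).eigenspace ((Q : E) ^ n) ↔ (f ^ n) w = (Q : E) ^ n • w := fun w =>
    Module.End.mem_eigenspace_iff
  have h0 : (f ^ n).eigenspace ((Q : E) ^ n) ≤ (onFirst σ Y).invariants := by
    refine transfer_zero (onFirst σ Y) (f ^ n) (comm_pow hfg n) K χ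
      (detects_tensor σ K χ hdet) _ (fun g w hw => ?_) fun i => ?_
    · rw [hmem] at hw ⊢
      rw [← Module.End.mul_apply, comm_pow hfg n g, Module.End.mul_apply, hw, map_smul]
    · by_contra hne
      set T : Submodule E (V ⊗[E] Y) :=
        (f ^ n).eigenspace ((Q : E) ^ n) ⊓ charPart (onFirst σ Y) (K i) (χ i) with hT
      have hst : ∀ w ∈ T, f w ∈ T := by
        rintro w ⟨h1, h2⟩
        refine ⟨?_, charPart_stable hfg (K i) (χ i) w h2⟩
        have h1' : (f ^ n) w = (Q : E) ^ n • w := (hmem w).1 h1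
        have h3 : (f ^ n) (f w) = (Q : E) ^ n • f w := by
          rw [← Module.End.mul_apply, ← pow_succ, pow_succ', Module.End.mul_apply, h1', map_smul]
        exact (hmem _).2 h3
      have hnt : Nontrivial T := Submodule.nontrivial_iff_ne_bot.2 hne
      obtain ⟨α, hα⟩ := Module.End.exists_eigenvalue (f.restrict hst)
      obtain ⟨w, hw⟩ := hα.exists_hasEigenvector
      have hw0 : (w : V ⊗[E] Y) ≠ 0 := fun h => hw.2 (Subtype.ext h)
      have hfw : f (w : V ⊗[E] Y) = α • (w : V ⊗[E] Y) := by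
        have h1 := congrArg Subtype.val hw.apply_eq_smul
        exact h1
      have hpow : ∀ m : ℕ, (f ^ m) (w : V ⊗[E] Y) = α ^ m • (w : V ⊗[E] Y) := by
        intro m
        induction m with
        | zero => simp
        | succ m ih =>
          rw [pow_succ, Module.End.mul_apply, hfw, map_smul, ih, smul_smul, ← pow_succ']
      have hαn : α ^ n = (Q : E) ^ n := by
        have h1 : (f ^ n) (w : V ⊗[E] Y) = (Q : E) ^ n • (w : V ⊗[E] Y) := (hmem _).1 w.2.1
        rw [hpow n] at h1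
        exact smul_left_injective E hw0 h1
      have h3 : finrank E ((onPart (onFirst σ Y) f hfg (K i) (χ i)).maxGenEigenspace α) = 0 := by
        have h4 := finrank_part σ hφ Ψ (K i) (χ i) α
        have h5 := mult_tensor (hp i) (hμ i) (hcore i) Ψ R hR hQ hn (e := 0) (he i) hαn
        rw [← h4] at h5
        exact Nat.le_zero.1 h5
      have h6 := inf_part_eq_bot (onFirst σ Y) f hfg (K i) (χ i) α h3
      apply hw0
      rw [← Submodule.mem_bot E, ← h6]
      refine ⟨?_, w.2.2⟩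
      have h7 : (w : V ⊗[E] Y) ∈ f.maxGenEigenspace α := by
        rw [Module.End.mem_maxGenEigenspace]
        refine ⟨1, ?_⟩
        rw [pow_one, LinearMap.sub_apply, LinearMap.smul_apply, Module.End.one_apply, hfw, sub_self]
      exact h7
  exact h0 ((hmem v).2 hv)

end

end Pool.Agent.Y134.TA
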