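import Pool.Agent.Y134.CH.Core

/-!
# The congruence for the cohomology of odd degree
-/

set_option autoImplicit false

namespace Pool.Agent.Y134.TA

open Finset Polynomial Pool.Agent.Y134.PG Pool.Agent.Y134.CH Pool.Agent.W528.HS
  Pool.Agent.W111.HS.EC Pool.Agent.Y134.Cyc

/-- The polynomial with the roots `A₂` as the image of a polynomial over `ℤ[T]`. -/
theorem lift_odd {E : Type} [Field E] [CharZero E] (N : ℕ) (μ : E) (a : ℕ → ℕ → ℕ)
    (A₁ A₂ : Multiset E) (P₃ : ℤ[X][X])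
    (hP₃ : P₃.map (ev μ) = (A₁.map fun x => 1 - C x * X).prod)
    (h : ∀ n, 1 ≤ n → orbSum N μ a n = (A₁.map fun x => x ^ n).sum - (A₂.map fun x => x ^ n).sum) :
    ∃ G : ℤ[X][X], G.map (ev μ) = (A₂.map fun x => X - C x).prod := by
  have hR : ∀ (n : ℕ) (x : E), n ≠ 0 → (n : E) * x = 0 → x = 0 := by
    intro n x hn h
    rcases mul_eq_zero.1 h with h2 | h2
    · exact (hn (Nat.cast_eq_zero.1 h2)).elim
    · exact h2
  have hc : ∀ n, ∃ g : ℤ[X], ev μ g = ((A₂.map fun x => 1 - C x * X).prod : E[X]).coeff n := by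
    intro n
    have h1 := main_congr hR N μ a A₁ A₂ h n
    set J : PowerSeries ℤ[X] := PowerSeries.invOfUnit (pm N (X : ℤ[X]) a n) 1 with hJ
    have hJ1 : pm N (X : ℤ[X]) a n * J = 1 := by
      refine PowerSeries.mul_invOfUnit _ _ ?_
      rw [← PowerSeries.coeff_zero_eq_constantCoeff_apply, coeff_zero_pm]
      rfl
    have hj : pm N μ a n * PowerSeries.map (ev μ) J = 1 := by
      rw [pm_map, ← map_mul, hJ1, map_one]
    have h3 : PowerSeries.X ^ (n + 1) ∣ PowerSeries.map (ev μ) J * gs A₁ - gs A₂ := by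
      refine (h1.mul_left (PowerSeries.map (ev μ) J)).trans (dvd_of_eq ?_)
      linear_combination (- gs A₂) * hj
    have h2 := (PowerSeries.X_pow_dvd_iff.1 h3) n (Nat.lt_succ_self n)
    rw [map_sub, sub_eq_zero, gs_coe, gs_coe, Polynomial.coeff_coe, ← hP₃,
      Polynomial.polynomial_map_coe, ← map_mul, PowerSeries.coeff_map] at h2
    exact ⟨_, h2⟩
  have h1 : ((A₂.map fun x => X - C x).prod : E[X]) ∈ Polynomial.lifts (ev μ) := by
    rw [Polynomial.lifts_iff_coeff_lifts]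
    intro n
    rw [← reflect_prod, coeff_reflect]
    obtain ⟨g, hg⟩ := hc (revAt A₂.card n)
    exact ⟨g, hg⟩
  rw [Polynomial.mem_lifts] at h1
  exact h1

/-- The congruence for `A₂`. -/
theorem main_odd {p s : ℕ} (hp : p.Prime) {E : Type} [Field E] [CharZero E] {μ : E}
    (hμ : μ ^ p ^ s = 1) (a : ℕ → ℕ → ℕ) (A₁ A₂ B₁ B₂ : Multiset E) (P₁ P₂ : ℤ[X])
    (P₃ : ℤ[X][X]) (hP₁ : P₁.coeff 0 = 1) (hP₂ : P₂.coeff 0 = 1)
    (hB₁ : P₁.map (Int.castRingHom E) = (B₁.map fun x => 1 - C x * X).prod)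
    (hB₂ : P₂.map (Int.castRingHom E) = (B₂.map fun x => 1 - C x * X).prod)
    (hA₁ : P₃.map (ev μ) = (A₁.map fun x => 1 - C x * X).prod)
    (h1 : ∀ n, 1 ≤ n → orbSum (p ^ s) μ a n
      = (A₁.map fun x => x ^ n).sum - (A₂.map fun x => x ^ n).sum)
    (h2 : ∀ n, 1 ≤ n → orbSum (p ^ s) (1 : E) a n
      = (B₂.map fun x => x ^ n).sum - (B₁.map fun x => x ^ n).sum)
    (H : (ZMod p)[X])
    (hH : H * P₂.map (Int.castRingHom (ZMod p))
      = P₁.map (Int.castRingHom (ZMod p)) * P₃.map (redHom (ZMod p))) :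
    ∃ (k : Type) (_ : Field k) (_ : CharP k p) (θ : (integralClosure ℤ E).toSubring →+* k)
      (A' : Multiset (integralClosure ℤ E).toSubring), A'.map Subtype.val = A₂ ∧
      (A'.map fun x => 1 - C (θ x) * X).prod = H.map (ZMod.castHom (dvd_refl p) k) ∧
      ∃ G : ℤ[X][X], G.map (ev μ) = (A₂.map fun x => X - C x).prod := by
  have hfact : Fact p.Prime := ⟨hp⟩
  have hps : 0 < p ^ s := pow_pos hp.pos s
  have hμi : IsIntegral ℤ μ := IsIntegral.of_pow hps (by rw [hμ]; exact isIntegral_one)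
  obtain ⟨G, hG⟩ := lift_odd (p ^ s) μ a A₁ A₂ P₃ hA₁ h1
  obtain ⟨k, _, _, ⟨θ⟩⟩ := Pool.Agent.W804.HS.RD.main E p hp
  obtain ⟨A₂', hA₂'⟩ := exists_sub (O := (integralClosure ℤ E).toSubring) A₂
    (int_of_lift hμi hG)
  obtain ⟨A₁', hA₁'⟩ := exists_sub (O := (integralClosure ℤ E).toSubring) A₁
    (int_of_lift' hμi hA₁)
  obtain ⟨B₁', hB₁'⟩ := exists_sub (O := (integralClosure ℤ E).toSubring) B₁
    (integral_of_poly hP₁ hB₁)
  obtain ⟨B₂', hB₂'⟩ := exists_sub (O := (integralClosure ℤ E).toSubring) B₂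
    (integral_of_poly hP₂ hB₂)
  have hμO : μ ∈ (integralClosure ℤ E).toSubring := hμi
  have hθ : θ ⟨μ, hμO⟩ = 1 := by
    have h3 : (⟨μ, hμO⟩ : (integralClosure ℤ E).toSubring) ^ p ^ s = 1 :=
      Subtype.ext (by push_cast; exact hμ)
    have h4 : (θ ⟨μ, hμO⟩ - 1) ^ p ^ s = 0 := by
      rw [sub_pow_char_pow, ← map_pow, h3, map_one, one_pow, sub_self]
    exact sub_eq_zero.mp ((pow_eq_zero_iff hps.ne').mp h4)
  have key := Pool.Agent.W111.HS.EC.main E (p ^ s) μ hps hμ a (integralClosure ℤ E).toSubring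
    A₁' A₂' B₂' B₁' (by
      intro n hn
      rw [h1 n hn, ← sum_pow_sub, ← sum_pow_sub, hA₁', hA₂']) (by
      intro n hn
      rw [h2 n hn, ← sum_pow_sub, ← sum_pow_sub, hB₁', hB₂']) k θ ⟨hμO, hθ⟩
  rw [red_prod hB₁ hB₁' θ, red_prod hB₂ hB₂' θ, red_prod₂ hA₁ hA₁' θ hμO hθ] at key
  let ι : ZMod p →+* k := ZMod.castHom (dvd_refl p) k
  have hι : ∀ P : ℤ[X], (P.map (Int.castRingHom (ZMod p))).map ι = P.map (Int.castRingHom k) := by
    intro P
    rw [Polynomial.map_map]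
    congr 1
    exact RingHom.ext_int _ _
  have hι2 : ∀ P : ℤ[X][X], (P.map (redHom (ZMod p))).map ι = P.map (redHom k) := by
    intro P
    rw [Polynomial.map_map]
    congr 1
    unfold redHom
    rw [← RingHom.comp_assoc]
    congr 1
    exact RingHom.ext_int _ _
  have hne : P₂.map (Int.castRingHom k) ≠ 0 := by
    intro h
    have h3 := congrArg (fun Q => Polynomial.coeff Q 0) h
    simp only [coeff_map, hP₂, coeff_zero, map_one] at h3
    exact one_ne_zero h3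
  refine ⟨k, inferInstance, inferInstance, θ, A₂', hA₂', ?_, G, hG⟩
  have h3 := congrArg (Polynomial.map ι) hH
  rw [Polynomial.map_mul, Polynomial.map_mul, hι, hι, hι2] at h3
  apply mul_right_cancel₀ hne
  rw [h3, mul_comm (P₁.map _), key, mul_comm]

/-- The eigenvalues on the part of a character of the cohomology of odd degree. -/
theorem core_odd {p s : ℕ} (hp : p.Prime) {G : Type} [Group G] [Finite G] {S : Type}
    [MulAction G S]
    {F : S → S} (hF : Function.Injective F) (hc : ∀ (g : G) (x : S), F (g • x) = g • F x)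
    (hfin : ∀ m, 1 ≤ m → Finite {x : S // F^[m] x = x})
    {E : Type} [Field E] [CharZero E] [IsAlgClosed E]
    {V : Type} [AddCommGroup V] [Module E V] [FiniteDimensional E V]
    {W : Type} [AddCommGroup W] [Module E W] [FiniteDimensional E W]
    (σ : Representation E G V) (φ : Module.End E V) (hφ : ∀ g, φ * σ g = σ g * φ)
    (τ : Representation E G W) (ψ : Module.End E W) (hψ : ∀ g, ψ * τ g = τ g * ψ)
    (c : ℕ → E)
    (htr : ∀ m, 1 ≤ m → ∀ g : G, (Nat.card {x : S // F^[m] x = g • x} : E)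
      = c m + LinearMap.trace E V (σ g * φ ^ m) - LinearMap.trace E W (τ g * ψ ^ m))
    (K : Subgroup G) (χ : K →* Eˣ) (hχ : ∀ k, χ k ^ p ^ s = 1) (hχ1 : χ ≠ 1)
    {μ : E} (hμ : IsPrimitiveRoot μ (p ^ s))
    (P₁ P₂ : ℤ[X]) (P₃ : ℤ[X][X]) (hP₁ : P₁.coeff 0 = 1) (hP₂ : P₂.coeff 0 = 1)
    (B₁ B₂ : Multiset E)
    (hB₁ : P₁.map (Int.castRingHom E) = (B₁.map fun x => 1 - C x * X).prod)
    (hB₂ : P₂.map (Int.castRingHom E) = (B₂.map fun x => 1 - C x * X).prod)
    (hP₃ : P₃.map (evHom μ) = zpoly (onPart σ φ hφ K χ))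
    (hN : ∀ m, 1 ≤ m → (goodOrbits χ F m : E)
      = (B₂.map fun x => x ^ m).sum - (B₁.map fun x => x ^ m).sum)
    (H : (ZMod p)[X])
    (hH : H * P₂.map (Int.castRingHom (ZMod p))
      = P₁.map (Int.castRingHom (ZMod p)) * P₃.map (redHom (ZMod p))) :
    ∃ (k : Type) (_ : Field k) (_ : CharP k p) (θ : (integralClosure ℤ E).toSubring →+* k)
      (A' : Multiset (integralClosure ℤ E).toSubring),
      A'.map Subtype.val = (onPart τ ψ hψ K χ).charpoly.roots ∧
      (A'.map fun x => 1 - C (θ x) * X).prod = H.map (ZMod.castHom (dvd_refl p) k) ∧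
      ∃ G : ℤ[X][X], G.map (ev μ)
        = ((onPart τ ψ hψ K χ).charpoly.roots.map fun x => X - C x).prod := by
  classical
  have : Fintype K := Fintype.ofFinite K
  have hcard : (Fintype.card K : E) ≠ 0 := Nat.cast_ne_zero.2 Fintype.card_ne_zero
  obtain ⟨a, ha⟩ := orb (G := K) (S := S) (χ := χ) (F := F) (pow_pos hp.pos s) hμ hχ hF
    (fun g x => hc (g : G) x) hfin
  refine main_odd hp hμ.pow_eq_one a ((onPart σ φ hφ K χ).charpoly.roots) _ B₁ B₂ P₁ P₂ P₃ hP₁ hP₂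
    hB₁ hB₂ hP₃ ?_ ?_ H hH
  · intro n hn
    rw [← Pool.Agent.W63.HS.TR.main E _ (onPart σ φ hφ K χ) n,
      ← Pool.Agent.W63.HS.TR.main E _ (onPart τ ψ hψ K χ) n, onPart_pow, onPart_pow]
    apply mul_left_cancel₀ hcard
    rw [← (ha n hn).1, mul_sub, trace_part, trace_part, ← sum_sub_distrib]
    have h1 : ∀ k : K, (((χ k)⁻¹ : Eˣ) : E) * (Nat.card {x : S // F^[n] x = k • x} : E)
        = (((χ k)⁻¹ : Eˣ) : E) * c n
          + ((((χ k)⁻¹ : Eˣ) : E) * LinearMap.trace E V (σ (k : G) * φ ^ n)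
            - (((χ k)⁻¹ : Eˣ) : E) * LinearMap.trace E W (τ (k : G) * ψ ^ n)) := by
      intro k
      have h2 := htr n hn (k : G)
      have h3 : (Nat.card {x : S // F^[n] x = k • x} : E)
          = (Nat.card {x : S // F^[n] x = (k : G) • x} : E) := rfl
      rw [h3, h2]
      ring
    rw [sum_congr rfl fun k _ => h1 k, sum_add_distrib, ← sum_mul, sum_char hχ1, zero_mul, zero_add]
  · intro n hn
    rw [← hN n hn, (ha n hn).2]

end Pool.Agent.Y134.TA
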