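import Pool.Agent.Y134.CH.Base
import Pool.Agent.Y134.Prod.Conj

/-!
# The action of a group on a tensor product through the first factor
-/

set_option autoImplicit false

namespace Pool.Agent.Y134.TA

open Finset Polynomial TensorProduct Pool.Agent.Y134.PG Pool.Agent.Y134.CH Pool.Agent.Y134.Prod

section
variable {E G V : Type} [Field E] [Group G] [AddCommGroup V] [Module E V]

/-- The action of `G` on `V ⊗ Y` through the first factor. -/
noncomputable def onFirst (σ : Representation E G V) (Y : Type) [AddCommGroup Y] [Module E Y] :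
    Representation E G (V ⊗[E] Y) where
  toFun g := TensorProduct.map (σ g) LinearMap.id
  map_one' := by
    rw [map_one]
    exact TensorProduct.map_one
  map_mul' := by
    intro g h
    rw [map_mul]
    have h1 : (LinearMap.id : Y →ₗ[E] Y) = (LinearMap.id : Y →ₗ[E] Y) * LinearMap.id := rfl
    conv_lhs => rw [h1]
    exact TensorProduct.map_mul _ _ _ _

variable {Y : Type} [AddCommGroup Y] [Module E Y]

lemma onFirst_apply (σ : Representation E G V) (g : G) :
    onFirst σ Y g = TensorProduct.map (σ g) LinearMap.id := rfl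

lemma map_comm {σ : Representation E G V} {φ : Module.End E V} (hφ : ∀ g, φ * σ g = σ g * φ)
    (Ψ : Module.End E Y) (g : G) : (TensorProduct.map φ Ψ : Module.End E (V ⊗[E] Y)) * onFirst σ Y g
      = onFirst σ Y g * TensorProduct.map φ Ψ := by
  rw [onFirst_apply]
  have h1 : (TensorProduct.map φ Ψ : Module.End E (V ⊗[E] Y)) * TensorProduct.map (σ g) LinearMap.id
      = TensorProduct.map (φ * σ g) (Ψ * LinearMap.id) := (TensorProduct.map_mul _ _ _ _).symm
  have h2 : (TensorProduct.map (σ g) LinearMap.id : Module.End E (V ⊗[E] Y)) * TensorProduct.map φ Ψ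
      = TensorProduct.map (σ g * φ) (LinearMap.id * Ψ) := (TensorProduct.map_mul _ _ _ _).symm
  rw [h1, h2, hφ]
  rfl

/-- The eigenvalues on the part of a character of the tensor product. -/
theorem roots_part [CharZero E] [IsAlgClosed E] [FiniteDimensional E V] [FiniteDimensional E Y]
    (σ : Representation E G V) {φ : Module.End E V} (hφ : ∀ g, φ * σ g = σ g * φ)
    (Ψ : Module.End E Y) (K : Subgroup G) [Finite K] (χ : K →* Eˣ) :
    (onPart (onFirst σ Y) (TensorProduct.map φ Ψ) (map_comm hφ Ψ) K χ).charpoly.roots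
      = tens (onPart σ φ hφ K χ).charpoly.roots Ψ.charpoly.roots := by
  classical
  have : Fintype K := Fintype.ofFinite K
  have hcard : (Fintype.card K : E) ≠ 0 := Nat.cast_ne_zero.2 Fintype.card_ne_zero
  have key : ∀ m : ℕ, LinearMap.trace E _
      (onPart (onFirst σ Y) (TensorProduct.map φ Ψ) (map_comm hφ Ψ) K χ ^ m)
      = LinearMap.trace E _ (onPart σ φ hφ K χ ^ m) * LinearMap.trace E _ (Ψ ^ m) := by
    intro m
    rw [onPart_pow, onPart_pow]
    apply mul_left_cancel₀ hcard
    rw [trace_part, ← mul_assoc, trace_part, sum_mul]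
    refine sum_congr rfl fun k _ => ?_
    rw [mul_assoc]
    congr 1
    have h1 : onFirst σ Y (k : G) * (TensorProduct.map φ Ψ : Module.End E (V ⊗[E] Y)) ^ m
        = TensorProduct.map (σ (k : G) * φ ^ m) (Ψ ^ m) := by
      rw [TensorProduct.map_pow, onFirst_apply]
      have h2 : (TensorProduct.map (σ (k : G)) LinearMap.id : Module.End E (V ⊗[E] Y))
          * TensorProduct.map (φ ^ m) (Ψ ^ m)
          = TensorProduct.map (σ (k : G) * φ ^ m) (LinearMap.id * Ψ ^ m) :=
        (TensorProduct.map_mul _ _ _ _).symm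
      rw [h2]
      rfl
    rw [h1, LinearMap.trace_tensorProduct']
  have hcards : ∀ {U : Type} [AddCommGroup U] [Module E U] [FiniteDimensional E U]
      (f : Module.End E U), (f.charpoly.roots.card : E) = LinearMap.trace E U (f ^ 0) := by
    intro U _ _ _ f
    rw [card_roots_charpoly, pow_zero, LinearMap.trace_one]
  apply psum_eq
  · intro m _
    rw [sum_tens, ← Pool.Agent.W63.HS.TR.main E _ _ m, ← Pool.Agent.W63.HS.TR.main E Y Ψ m,
      ← Pool.Agent.W63.HS.TR.main E _ _ m, key]
  · have h0 := key 0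
    rw [← hcards, ← hcards, ← hcards] at h0
    rw [card_tens]
    exact_mod_cast h0

/-- Contraction with a functional of the second factor. -/
noncomputable def contr (l : Y →ₗ[E] E) : V ⊗[E] Y →ₗ[E] V :=
  (TensorProduct.rid E V).toLinearMap ∘ₗ TensorProduct.map LinearMap.id l

lemma contr_tmul (l : Y →ₗ[E] E) (v : V) (y : Y) : contr l (v ⊗ₜ[E] y) = l y • v := by
  simp [contr]

lemma contr_act (l : Y →ₗ[E] E) (σ : Representation E G V) (g : G) (w : V ⊗[E] Y) :
    contr l (onFirst σ Y g w) = σ g (contr l w) := by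
  have h1 : (contr l : V ⊗[E] Y →ₗ[E] V) ∘ₗ (onFirst σ Y g) = (σ g) ∘ₗ contr l := by
    apply TensorProduct.ext'
    intro v y
    rw [LinearMap.comp_apply, LinearMap.comp_apply, onFirst_apply, TensorProduct.map_tmul,
      contr_tmul, contr_tmul, map_smul]
    rfl
  exact LinearMap.congr_fun h1 w

lemma exists_contr [FiniteDimensional E Y] {w : V ⊗[E] Y} (hw : w ≠ 0) :
    ∃ l : Y →ₗ[E] E, contr l w ≠ 0 := by
  classical
  by_contra hcon
  push Not at hcon
  apply hw
  let b := Module.finBasis E Y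
  have h1 : ∀ w : V ⊗[E] Y, w = ∑ i, contr (b.coord i) w ⊗ₜ[E] b i := by
    intro w
    induction w using TensorProduct.induction_on with
    | zero => simp
    | tmul v y =>
      have h2 : ∀ i, contr (b.coord i) (v ⊗ₜ[E] y) ⊗ₜ[E] b i = v ⊗ₜ[E] (b.repr y i • b i) := by
        intro i
        rw [contr_tmul, TensorProduct.smul_tmul]
        rfl
      rw [Finset.sum_congr rfl fun i _ => h2 i, ← TensorProduct.tmul_sum, b.sum_repr]
    | add x y hx hy =>
      conv_lhs => rw [hx, hy]
      rw [← Finset.sum_add_distrib]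
      refine Finset.sum_congr rfl fun i _ => ?_
      rw [map_add, TensorProduct.add_tmul]
  rw [h1 w]
  refine Finset.sum_eq_zero fun i _ => ?_
  rw [hcon, TensorProduct.zero_tmul]

lemma contr_tw (l : Y →ₗ[E] E) (σ : Representation E G V) (K : Subgroup G) (χ : K →* Eˣ) (k : K)
    (w : V ⊗[E] Y) : contr l (tw (onFirst σ Y) K χ k w) = tw σ K χ k (contr l w) := by
  change contr l ((((χ k)⁻¹ : Eˣ) : E) • onFirst σ Y (k : G) w)
    = (((χ k)⁻¹ : Eˣ) : E) • σ (k : G) (contr l w)
  rw [map_smul, contr_act]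

lemma contr_avg (l : Y →ₗ[E] E) {K : Type} [Group K] [Fintype K] (α : Representation E K V)
    (β : Representation E K (V ⊗[E] Y)) (h : ∀ k w, contr l (β k w) = α k (contr l w))
    (w : V ⊗[E] Y) : contr l (avg β w) = avg α (contr l w) := by
  unfold avg
  rw [LinearMap.smul_apply, LinearMap.sum_apply, map_smul, map_sum, LinearMap.smul_apply,
    LinearMap.sum_apply]
  congr 1
  exact Finset.sum_congr rfl fun k _ => h k w

/-- The detection property for the tensor product. -/
theorem detects_tensor [CharZero E] [Finite G] [FiniteDimensional E Y]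
    (σ : Representation E G V) {ι : Type} (K : ι → Subgroup G) (χ : ∀ i, K i →* Eˣ)
    (hdet : ∀ R : Submodule E V, R ≠ ⊥ → (∀ g, ∀ v ∈ R, σ g v ∈ R) →
      (R ⊓ σ.invariants : Submodule E V) = ⊥ →
        ∃ i, (R ⊓ charPart σ (K i) (χ i) : Submodule E V) ≠ ⊥)
    (R : Submodule E (V ⊗[E] Y)) (hR : R ≠ ⊥) (hst : ∀ g, ∀ v ∈ R, onFirst σ Y g v ∈ R)
    (hinv : (R ⊓ (onFirst σ Y).invariants : Submodule E (V ⊗[E] Y)) = ⊥) :
    ∃ i, (R ⊓ charPart (onFirst σ Y) (K i) (χ i) : Submodule E (V ⊗[E] Y)) ≠ ⊥ := by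
  classical
  have : Fintype G := Fintype.ofFinite G
  obtain ⟨w, hw, hw0⟩ := (Submodule.ne_bot_iff R).1 hR
  obtain ⟨l, hl⟩ := exists_contr hw0
  have havg : ∀ {K' : Type} [Group K'] [Fintype K'] (β : Representation E K' (V ⊗[E] Y)),
      (∀ k, ∀ v ∈ R, β k v ∈ R) → ∀ v ∈ R, avg β v ∈ R := by
    intro K' _ _ β hβ v hv
    unfold avg
    rw [LinearMap.smul_apply, LinearMap.sum_apply]
    exact R.smul_mem _ (R.sum_mem fun g _ => hβ g v hv)
  obtain ⟨i, hi⟩ := hdet (R.map (contr l)) (by
      rw [Submodule.ne_bot_iff]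
      exact ⟨contr l w, Submodule.mem_map_of_mem hw, hl⟩) (by
      intro g v hv
      obtain ⟨u, hu, rfl⟩ := hv
      rw [← contr_act]
      exact Submodule.mem_map_of_mem (hst g u hu)) (by
      rw [eq_bot_iff]
      rintro v ⟨⟨u, hu, hu2⟩, hv⟩
      have h1 : avg σ v = v := avg_apply_of_inv σ (by
        have hv' : v ∈ σ.invariants := hv
        rwa [Representation.mem_invariants] at hv')
      have h2 : avg (onFirst σ Y) u = 0 := by
        have h3 : avg (onFirst σ Y) u ∈ (R ⊓ (onFirst σ Y).invariants :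
            Submodule E (V ⊗[E] Y)) := by
          refine ⟨havg _ hst u hu, ?_⟩
          have h4 : avg (onFirst σ Y) u ∈ (onFirst σ Y).invariants := by
            rw [Representation.mem_invariants]
            exact avg_inv _ u
          exact h4
        rw [hinv, Submodule.mem_bot] at h3
        exact h3
      have h5 := contr_avg l σ (onFirst σ Y) (contr_act l σ) u
      rw [h2, map_zero, hu2, h1] at h5
      rw [Submodule.mem_bot]
      exact h5.symm)
  refine ⟨i, ?_⟩
  obtain ⟨v, ⟨⟨u, hu, hu2⟩, hv⟩, hv0⟩ := (Submodule.ne_bot_iff _).1 hi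
  have : Fintype (K i) := Fintype.ofFinite (K i)
  have h1 : avg (tw σ (K i) (χ i)) v = v := avg_apply_of_inv _ (by
    have hv' : v ∈ (tw σ (K i) (χ i)).invariants := by
      rw [tw_inv]
      exact hv
    rwa [Representation.mem_invariants] at hv')
  have h2 := contr_avg l (tw σ (K i) (χ i)) (tw (onFirst σ Y) (K i) (χ i))
    (fun k w => contr_tw l σ (K i) (χ i) k w) u
  rw [hu2, h1] at h2
  rw [Submodule.ne_bot_iff]
  refine ⟨avg (tw (onFirst σ Y) (K i) (χ i)) u, ⟨?_, ?_⟩, ?_⟩
  · apply havg
    · intro k v hv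
      change (((χ i k)⁻¹ : Eˣ) : E) • onFirst σ Y (k : G) v ∈ R
      exact R.smul_mem _ (hst _ _ hv)
    · exact hu
  · have h4 : avg (tw (onFirst σ Y) (K i) (χ i)) u ∈ (tw (onFirst σ Y) (K i) (χ i)).invariants := by
      rw [Representation.mem_invariants]
      exact avg_inv _ u
    rw [tw_inv] at h4
    exact h4
  · intro h0
    rw [h0, map_zero] at h2
    exact hv0 h2.symm

end

end Pool.Agent.Y134.TA
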