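import Pool.Agent.Y134.TA.Defs
import Pool.Agent.Y134.TA.Rep
import Pool.Agent.Y134.TA.Odd
import Pool.Agent.Y134.CH.Mult

/-!
# Multiplicities on the tensor product
-/

set_option autoImplicit false

namespace Pool.Agent.Y134.TA

open Finset Polynomial TensorProduct Pool.Agent.Y134.PG Pool.Agent.Y134.CH Pool.Agent.Y134.Prod
  Pool.Agent.W528.HS Pool.Agent.Y134.Cyc

lemma tensPoly_map {k k' : Type} [Field k] [Field k'] {p : ℕ} [CharP k p] [CharP k' p]
    (f : k →+* k') (H : (ZMod p)[X]) (R : ℤ[X]) (hs : (R.map (Int.castRingHom k)).Splits) :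
    tensPoly k' H R = (tensPoly k H R).map f := by
  unfold tensPoly
  have h1 : R.map (Int.castRingHom k') = (R.map (Int.castRingHom k)).map f := by
    rw [Polynomial.map_map, RingHom.ext_int (f.comp _) (Int.castRingHom k')]
  have h2 : H.map (ZMod.castHom (dvd_refl p) k') = (H.map (ZMod.castHom (dvd_refl p) k)).map f := by
    rw [Polynomial.map_map]
    congr 1
    exact RingHom.ext_zmod _ _
  rw [h1, hs.roots_map, Polynomial.map_multiset_prod, Multiset.map_map, Multiset.map_map, h2]
  congr 1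
  refine Multiset.map_congr rfl fun y _ => ?_
  simp only [Function.comp_apply]
  rw [Polynomial.map_comp, Polynomial.map_mul, Polynomial.map_C, Polynomial.map_X]

lemma cycDvd_of {p : ℕ} (hp : p.Prime) {k : Type} [Field k] [CharP k p] {H : (ZMod p)[X]}
    {R : ℤ[X]} (hs : (R.map (Int.castRingHom k)).Splits) {Q M n : ℕ}
    (h : cyc k (Q : k) M ^ n ∣ tensPoly k H R) : CycDvd H R Q M n := by
  intro l _ _ _
  have hfact : Fact p.Prime := ⟨hp⟩
  have hk' : CharP (AlgebraicClosure k) p := charP_of_injective_algebraMap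
    (algebraMap k (AlgebraicClosure k)).injective p
  have hF : CharP (AlgebraicClosure (ZMod p)) p := charP_of_injective_algebraMap
    (algebraMap (ZMod p) (AlgebraicClosure (ZMod p))).injective p
  let _ : Algebra (ZMod p) (AlgebraicClosure k) := ZMod.algebra _ p
  let _ : Algebra (ZMod p) l := ZMod.algebra _ p
  let g : AlgebraicClosure (ZMod p) →+* AlgebraicClosure k :=
    (IsAlgClosed.lift : AlgebraicClosure (ZMod p) →ₐ[ZMod p] AlgebraicClosure k).toRingHom
  let g' : AlgebraicClosure (ZMod p) →+* l :=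
    (IsAlgClosed.lift : AlgebraicClosure (ZMod p) →ₐ[ZMod p] l).toRingHom
  have h1 : cyc (AlgebraicClosure k) (Q : AlgebraicClosure k) M ^ n
      ∣ tensPoly (AlgebraicClosure k) H R := by
    have h2 := Polynomial.map_dvd (algebraMap k (AlgebraicClosure k)) h
    rw [Polynomial.map_pow, cyc_map, map_natCast, ← tensPoly_map _ H R hs] at h2
    exact h2
  have hs' : (R.map (Int.castRingHom (AlgebraicClosure (ZMod p)))).Splits :=
    IsAlgClosed.splits _
  have h3 : cyc (AlgebraicClosure (ZMod p)) (Q : AlgebraicClosure (ZMod p)) M ^ n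
      ∣ tensPoly (AlgebraicClosure (ZMod p)) H R := by
    rw [tensPoly_map g H R hs', ← map_natCast g, ← cyc_map, ← Polynomial.map_pow,
      map_dvd_map'] at h1
    exact h1
  have h4 := Polynomial.map_dvd g' h3
  rw [Polynomial.map_pow, cyc_map, map_natCast, ← tensPoly_map g' H R hs'] at h4
  exact h4

lemma prod_congr_map {O : Type} {k : Type} [CommRing k] (A : Multiset O) (t : O → k) :
    (A.map fun x => 1 - C (t x) * X).prod = ((A.map t).map fun x => (1 - C x * X : k[X])).prod := by
  rw [Multiset.map_map]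
  rfl

/-- The eigenvalues of `f` modulo `p` are given by `H`, and the characteristic polynomial is defined
over the ring generated by the root of unity `μ`. -/
def Core {E U : Type} [Field E] [AddCommGroup U] [Module E U] [FiniteDimensional E U]
    (f : Module.End E U) (p : ℕ) (μ : E) (H : (ZMod p)[X]) : Prop :=
  ∃ (k : Type) (_ : Field k) (_ : CharP k p) (θ : (integralClosure ℤ E).toSubring →+* k)
    (A' : Multiset (integralClosure ℤ E).toSubring),
    A'.map Subtype.val = f.charpoly.roots ∧
    (A'.map fun x => 1 - C (θ x) * X).prod = H.map (ZMod.castHom (dvd_refl p) k) ∧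
    ∃ G : ℤ[X][X], G.map (ev μ) = (f.charpoly.roots.map fun x => X - C x).prod

section
variable {p s : ℕ} {E : Type} [Field E] [CharZero E] [IsAlgClosed E]
  {U : Type} [AddCommGroup U] [Module E U] [FiniteDimensional E U] {f : Module.End E U}

/-- The total multiplicity of the eigenvalues `Q ζ η`, `η` of `p`-power order, on the tensor
product. -/
theorem sum_mult_tensor (hp : p.Prime) {μ : E} (hμ : IsPrimitiveRoot μ (p ^ s))
    {H : (ZMod p)[X]} (hcore : Core f p μ H)
    {Y : Type} [AddCommGroup Y] [Module E Y] [FiniteDimensional E Y] (Ψ : Module.End E Y)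
    (R : ℤ[X]) (hR : Ψ.charpoly = R.map (Int.castRingHom E))
    (Q : ℕ) {M : ℕ} (hM : 0 < M) (hMp : ¬ p ∣ M) {ζ : E} (hζ : IsPrimitiveRoot ζ M) {e : ℕ}
    (he : ¬ CycDvd H R Q M (e + 1)) (b : ℕ) :
    ∑ η ∈ nthRootsFinset (p ^ b) (1 : E),
      Module.finrank E (Module.End.maxGenEigenspace
        (TensorProduct.map f Ψ) ((Q : E) * (ζ * η))) ≤ e := by
  classical
  have hfact : Fact p.Prime := ⟨hp⟩
  obtain ⟨k, _, _, θ, A', hA', hprod, G', hG'⟩ := hcore
  set A := f.charpoly.roots with hA
  set B := Ψ.charpoly.roots with hB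
  have hBprod : Ψ.charpoly = (B.map fun x => X - C x).prod :=
    (IsAlgClosed.splits Ψ.charpoly).eq_prod_roots_of_monic (LinearMap.charpoly_monic Ψ)
  have hRm : R.Monic := by
    apply monic_of_injective (f := Int.castRingHom E) (RingHom.injective_int _)
    rw [← hR]
    exact LinearMap.charpoly_monic Ψ
  have hBi : ∀ x ∈ B, IsIntegral ℤ x := by
    intro x hx
    refine ⟨R, hRm, ?_⟩
    have h3 := (mem_roots'.1 hx).2
    rw [hR, IsRoot.def, eval_map] at h3
    exact h3
  have hAi : ∀ x ∈ A, IsIntegral ℤ x := by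
    intro x hx
    rw [← hA', Multiset.mem_map] at hx
    obtain ⟨y, _, rfl⟩ := hx
    exact y.2
  obtain ⟨B', hB'⟩ := exists_sub (O := (integralClosure ℤ E).toSubring) B hBi
  have hval : (tens A' B').map Subtype.val = tens A B := by
    have h := map_tens (f := ((integralClosure ℤ E).toSubring.subtype :
      (integralClosure ℤ E).toSubring →ₙ* E)) A' B'
    have e1 : A'.map ((integralClosure ℤ E).toSubring.subtype :
      (integralClosure ℤ E).toSubring →ₙ* E) = A := hA'
    have e2 : B'.map ((integralClosure ℤ E).toSubring.subtype :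
      (integralClosure ℤ E).toSubring →ₙ* E) = B := hB'
    rw [e1, e2] at h
    exact h
  -- the reduction of `R`
  have hRO : R.map (Int.castRingHom (integralClosure ℤ E).toSubring)
      = (B'.map fun x => X - C x).prod := by
    apply Polynomial.map_injective (integralClosure ℤ E).toSubring.subtype Subtype.val_injective
    rw [Polynomial.map_map, RingHom.ext_int ((integralClosure ℤ E).toSubring.subtype.comp _)
      (Int.castRingHom E), ← hR, hBprod, Polynomial.map_multiset_prod, Multiset.map_map, ← hB',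
      Multiset.map_map]
    congr 1
    refine Multiset.map_congr rfl fun x _ => ?_
    simp only [Function.comp_apply, Polynomial.map_sub, Polynomial.map_X, Polynomial.map_C]
    rfl
  have hRk : R.map (Int.castRingHom k) = ((B'.map θ).map fun x => X - C x).prod := by
    have h1 := congrArg (Polynomial.map θ) hRO
    rw [Polynomial.map_map, RingHom.ext_int (θ.comp _) (Int.castRingHom k),
      Polynomial.map_multiset_prod, Multiset.map_map] at h1
    rw [h1, Multiset.map_map]
    congr 1
    refine Multiset.map_congr rfl fun x _ => ?_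
    simp
  have hsplit : (R.map (Int.castRingHom k)).Splits := by
    rw [hRk]
    apply Splits.multisetProd
    intro f hf
    obtain ⟨x, -, rfl⟩ := Multiset.mem_map.1 hf
    exact Splits.X_sub_C x
  have hroots : (R.map (Int.castRingHom k)).roots = B'.map θ := by
    rw [hRk, roots_multiset_prod_X_sub_C]
  have hred : ((tens A' B').map fun x => 1 - C (θ x) * X).prod = tensPoly k H R := by
    have h := map_tens (f := (θ : (integralClosure ℤ E).toSubring →ₙ* k)) A' B'
    have h3 : (tens A' B').map θ = tens (A'.map θ) (B'.map θ) := h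
    rw [prod_congr_map (tens A' B') θ, h3, prod_tens, ← prod_congr_map A' θ, hprod]
    unfold tensPoly
    rw [hroots]
  -- conjugation
  have hconj : ∀ η : E, η ^ p ^ b = 1 → ∀ u : ℕ, u.Coprime M →
      (tens A B).count ((Q : E) * (ζ * η)) ≤ (tens A B).count ((Q : E) * (ζ ^ u * η)) := by
    intro η hη u hu
    set d := max s b with hd
    have hpd : 0 < p ^ d := pow_pos hp.pos d
    have hn' : 0 < M * p ^ d := Nat.mul_pos hM hpd
    obtain ⟨ρ, hρ⟩ := exists_primitive E (M * p ^ d) hn'
    have hμ1 : μ ^ (M * p ^ d) = 1 := by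
      obtain ⟨e, he⟩ := pow_dvd_pow p (le_max_left s b)
      rw [← hd] at he
      rw [he, mul_comm M, mul_assoc, pow_mul, hμ.pow_eq_one, one_pow]
    have hη1 : η ^ p ^ d = 1 := by
      obtain ⟨e, he⟩ := pow_dvd_pow p (le_max_right s b)
      rw [← hd] at he
      rw [he, pow_mul, hη, one_pow]
    have hy1 : (ζ * η) ^ (M * p ^ d) = 1 := by
      rw [mul_pow, pow_mul, hζ.pow_eq_one, one_pow, mul_comm M, pow_mul, hη1, one_pow, one_mul]
    have : NeZero (M * p ^ d) := ⟨hn'.ne'⟩
    obtain ⟨i, -, hi⟩ := hρ.eq_pow_of_pow_eq_one hμ1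
    obtain ⟨j, -, hj⟩ := hρ.eq_pow_of_pow_eq_one hy1
    have hcop : Nat.Coprime M (p ^ d) :=
      Nat.Coprime.pow_right d ((Nat.Prime.coprime_iff_not_dvd hp).2 hMp).symm
    obtain ⟨t, ht1, ht2⟩ := Nat.chineseRemainder hcop u 1
    have htc : t.Coprime (M * p ^ d) := by
      apply Nat.Coprime.mul_right
      · exact (Nat.ModEq.gcd_eq ht1).trans hu
      · exact (Nat.ModEq.gcd_eq ht2).trans (Nat.gcd_one_left _)
    have hμt : μ ^ t = μ := by
      have h1 : t ≡ 1 [MOD p ^ s] := ht2.of_dvd (pow_dvd_pow p (le_max_left s b))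
      have h2 := pow_eq_pow_of_modEq h1 hμ.pow_eq_one
      rwa [pow_one] at h2
    have hηt : η ^ t = η := by
      have h2 := pow_eq_pow_of_modEq ht2 hη1
      rwa [pow_one] at h2
    have hζt : ζ ^ t = ζ ^ u := pow_eq_pow_of_modEq ht1 hζ.pow_eq_one
    have hμi : (ρ ^ t) ^ i = μ := by rw [← pow_mul, mul_comm, pow_mul, hi, hμt]
    have hyj : (ρ ^ t) ^ j = ζ ^ u * η := by
      rw [← pow_mul, mul_comm, pow_mul, hj, mul_pow, hζt, hηt]
    have h3 := count_tens hn' hρ htc i j Q (by rw [hμi, hi]) hAi hBi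
      (G := G') (by rw [hi, hG']) (R := R) (by rw [← hR]; exact hBprod)
    rw [hj, hyj] at h3
    exact h3.le
  have h1 := cyc_dvd₂ hp θ (tens A B) (tens A' B') hval Q hM hMp hζ b hconj
  have h0 : ∑ η ∈ nthRootsFinset (p ^ b) (1 : E),
      Module.finrank E (Module.End.maxGenEigenspace
        (TensorProduct.map f Ψ) ((Q : E) * (ζ * η)))
      = ∑ η ∈ nthRootsFinset (p ^ b) (1 : E), (tens A B).count ((Q : E) * (ζ * η)) := by
    refine sum_congr rfl fun η _ => ?_
    rw [LinearMap.finrank_maxGenEigenspace_eq, ← count_roots, roots_tensor]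
  rw [hred, ← h0] at h1
  by_contra hlt
  rw [not_le] at hlt
  exact he (cycDvd_of hp hsplit ((pow_dvd_pow _ hlt).trans h1))

/-- The multiplicity of an eigenvalue `α` with `α ^ n = Q ^ n`. -/
theorem mult_tensor (hp : p.Prime) {μ : E} (hμ : IsPrimitiveRoot μ (p ^ s))
    {H : (ZMod p)[X]} (hcore : Core f p μ H)
    {Y : Type} [AddCommGroup Y] [Module E Y] [FiniteDimensional E Y] (Ψ : Module.End E Y)
    (R : ℤ[X]) (hR : Ψ.charpoly = R.map (Int.castRingHom E))
    {Q : ℕ} (hQ : Q ≠ 0) {n : ℕ} (hn : 1 ≤ n) {e : ℕ}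
    (he : ∀ M, M ∣ n → ¬ p ∣ M → ¬ CycDvd H R Q M (e + 1)) {α : E} (hα : α ^ n = (Q : E) ^ n) :
    Module.finrank E (Module.End.maxGenEigenspace (TensorProduct.map f Ψ) α) ≤ e := by
  classical
  have hQE : (Q : E) ≠ 0 := Nat.cast_ne_zero.2 hQ
  obtain ⟨M, c, ζ, η, hMn, hMp, hζ, hη, hy⟩ := decomp hp hn (y := α / Q) (by
    rw [div_pow, hα, div_self (pow_ne_zero n hQE)])
  have hM : 0 < M := Nat.pos_of_dvd_of_pos hMn hn
  have hα2 : α = Q * (ζ * η) := by rw [← hy]; field_simp
  have h1 := sum_mult_tensor hp hμ hcore Ψ R hR Q hM hMp hζ (he M hMn hMp) c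
  rw [hα2]
  refine le_trans ?_ h1
  exact single_le_sum (f := fun η => Module.finrank E (Module.End.maxGenEigenspace
    (TensorProduct.map f Ψ) ((Q : E) * (ζ * η)))) (fun _ _ => Nat.zero_le _)
    ((mem_nthRootsFinset (pow_pos hp.pos c) 1).2 hη)

end

end Pool.Agent.Y134.TA
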