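import Pool.Agent.Y134.CH.Datum
import Pool.Agent.Y134.TA.Main

/-!
# Characters and the cohomology of odd degree; the product
-/

set_option autoImplicit false

namespace Pool.Agent.Y134.TA

open Polynomial TensorProduct Pool.Agent.Y134.CH

/-- `H` is the reduction modulo `p` of `P₁ P₃ / P₂`. Here `P₁`, `P₂` are integral polynomials
`∏ (1 - x T)` such that the numbers of good orbits of `χ` are the differences of the power sums for
`P₂` and `P₁`, and `P₃(μ, T) = ∏ (1 - x T)`, the product over the eigenvalues `x` of `f` (Frobenius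
on the cohomology of even degree); the root of unity `μ` is mapped to `1`. -/
def ZetaOdd {K S E U : Type} [Group K] [MulAction K S] [Field E] [AddCommGroup U] [Module E U]
    [FiniteDimensional E U] (χ : K →* Eˣ) (F : S → S) (μ : E) (f : Module.End E U) (p : ℕ)
    (H : (ZMod p)[X]) : Prop :=
  ∃ (P₁ P₂ : ℤ[X]) (P₃ : ℤ[X][X]) (B₁ B₂ : Multiset E),
    P₁.map (Int.castRingHom E) = (B₁.map fun x => 1 - C x * X).prod ∧
    P₂.map (Int.castRingHom E) = (B₂.map fun x => 1 - C x * X).prod ∧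
    P₃.map (evHom μ) = zpoly f ∧
    (∀ m, 1 ≤ m → (goodOrbits χ F m : E)
      = (B₂.map fun x => x ^ m).sum - (B₁.map fun x => x ^ m).sum) ∧
    H * P₂.map (Int.castRingHom (ZMod p))
      = P₁.map (Int.castRingHom (ZMod p)) * P₃.map (redHom (ZMod p))

/-- A subgroup `K` with a character `χ ≠ 1` whose order is a power of the prime `p`, and the
polynomial `H` that gives the eigenvalues modulo `p` on the part of `χ` of the cohomology of odd
degree. -/
structure OddPair {E : Type} [Field E] (D : Datum E) where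
  /-- the subgroup -/
  K : Subgroup D.G
  /-- the character -/
  χ : K →* Eˣ
  /-- the prime -/
  p : ℕ
  /-- the exponent -/
  s : ℕ
  prime : p.Prime
  order : ∀ k, χ k ^ p ^ s = 1
  ne_one : χ ≠ 1
  /-- the root of unity -/
  μ : E
  primitive : IsPrimitiveRoot μ (p ^ s)
  /-- the inverse of the zeta function modulo `p` -/
  H : (ZMod p)[X]
  zeta : ZetaOdd χ D.F μ (onPart D.σ D.φ D.commV K χ) p H

/-- The powers `Φ_M(Q T) ^ e`, `M` a divisor of `n` prime to `p`, do not divide `∏ H(y T)`, the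
product over the roots `y` of `R`. -/
def NoCyc {p : ℕ} (H : (ZMod p)[X]) (R : ℤ[X]) (Q n e : ℕ) : Prop :=
  ∀ M, M ∣ n → ¬ p ∣ M → ¬ CycDvd H R Q M e

section
variable {E : Type} [Field E] {D : Datum E}

/-- The part of `W` on which `K` acts through `χ`. -/
def OddPair.part (P : OddPair D) : Submodule E D.W := charPart D.τ P.K P.χ

/-- Frobenius on this part. -/
noncomputable def OddPair.frob (P : OddPair D) : Module.End E P.part :=
  onPart D.τ D.ψ D.commW P.K P.χ

/-- Every `G`-stable subspace `R ≠ 0` of `W` without invariants meets the part of one of the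
pairs. -/
def DetectsOdd {ι : Type} (P : ι → OddPair D) : Prop :=
  ∀ R : Submodule E D.W, R ≠ ⊥ → (∀ g, ∀ v ∈ R, D.τ g v ∈ R) →
    (R ⊓ D.τ.invariants : Submodule E D.W) = ⊥ → ∃ i, (R ⊓ (P i).part : Submodule E D.W) ≠ ⊥

/-- The cohomology of a variety: `Y₀` of even degree, `Y₁` of odd degree, with the endomorphisms `Ψ₀`
and `Ψ₁` (Frobenius), whose characteristic polynomials `R₀`, `R₁` have integral coefficients. -/
structure Factor (E : Type) [Field E] where
  /-- the cohomology of even degree -/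
  Y₀ : Type
  /-- the cohomology of odd degree -/
  Y₁ : Type
  [add₀ : AddCommGroup Y₀]
  [mod₀ : Module E Y₀]
  [fin₀ : FiniteDimensional E Y₀]
  [add₁ : AddCommGroup Y₁]
  [mod₁ : Module E Y₁]
  [fin₁ : FiniteDimensional E Y₁]
  /-- Frobenius on `Y₀` -/
  Ψ₀ : Module.End E Y₀
  /-- Frobenius on `Y₁` -/
  Ψ₁ : Module.End E Y₁
  /-- its characteristic polynomial -/
  R₀ : ℤ[X]
  /-- its characteristic polynomial -/
  R₁ : ℤ[X]
  char₀ : Ψ₀.charpoly = R₀.map (Int.castRingHom E)
  char₁ : Ψ₁.charpoly = R₁.map (Int.castRingHom E)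

attribute [instance] Factor.add₀ Factor.mod₀ Factor.fin₀ Factor.add₁ Factor.mod₁ Factor.fin₁

variable (D) (Y : Factor E)

/-- The cohomology of even degree of the product. -/
def Prd : Type := (D.V ⊗[E] Y.Y₀) × (D.W ⊗[E] Y.Y₁)

noncomputable instance instAddPrd : AddCommGroup (Prd D Y) :=
  inferInstanceAs (AddCommGroup ((D.V ⊗[E] Y.Y₀) × (D.W ⊗[E] Y.Y₁)))

noncomputable instance instModPrd : Module E (Prd D Y) :=
  inferInstanceAs (Module E ((D.V ⊗[E] Y.Y₀) × (D.W ⊗[E] Y.Y₁)))

/-- Frobenius on the cohomology of even degree of the product. -/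
noncomputable def prodFrob : Module.End E (Prd D Y) :=
  LinearMap.prodMap (TensorProduct.map D.φ Y.Ψ₀) (TensorProduct.map D.ψ Y.Ψ₁)

/-- The invariants of `G` in the cohomology of even degree of the product. -/
noncomputable def prodInv : Submodule E (Prd D Y) :=
  (onFirst D.σ Y.Y₀).invariants.prod (onFirst D.τ Y.Y₁).invariants

/-- The generalized eigenspaces of Frobenius. -/
noncomputable def genSpace (α : E) : Submodule E (Prd D Y) := (prodFrob D Y).maxGenEigenspace α

/-- The eigenspaces of Frobenius. -/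
noncomputable def eigSpace (α : E) : Submodule E (Prd D Y) := (prodFrob D Y).eigenspace α

/-- The vectors with `Frob ^ n = Q ^ n` and the generalized eigenspaces of the `α` with
`α ^ n = Q ^ n` are invariant under `G`. -/
def TateInv (Q n : ℕ) : Prop :=
  (∀ v, (prodFrob D Y ^ n) v = (Q : E) ^ n • v → v ∈ prodInv D Y) ∧
  ∀ α : E, α ^ n = Q ^ n → genSpace D Y α ≤ prodInv D Y

/-- Each `α` with `α ^ n = Q ^ n` is a semisimple eigenvalue if and only if it is a semisimple
eigenvalue on the invariants of `G`. -/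
def SemiIff (Q n : ℕ) : Prop :=
  ∀ α : E, α ^ n = Q ^ n →
    (genSpace D Y α = eigSpace D Y α ↔ genSpace D Y α ⊓ prodInv D Y ≤ eigSpace D Y α)

end

/-- For `ζ` of order `M` prime to `p`: if `Φ_M(Q T) ^ (e + 1)` does not divide `∏ H(y T)`, the
product over the roots `y` of `R`, then the total multiplicity of the eigenvalues `Q ζ η`,
`η ^ (p ^ b) = 1`, of `f ⊗ Ψ` is at most `e`. -/
def MultBound {E U Y : Type} [Field E] [AddCommGroup U] [Module E U] [AddCommGroup Y] [Module E Y]
    (f : Module.End E U) {p : ℕ} (H : (ZMod p)[X]) (Ψ : Module.End E Y) (R : ℤ[X]) (Q : ℕ) : Prop :=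
  ∀ (M e b : ℕ) (ζ : E), 0 < M → ¬ p ∣ M → IsPrimitiveRoot ζ M → ¬ CycDvd H R Q M (e + 1) →
    ∑ η ∈ nthRootsFinset (p ^ b) (1 : E),
      Pool.Agent.Y134.CH.mult (TensorProduct.map f Ψ) (Q * (ζ * η)) ≤ e

section
variable {E A B : Type} [Field E] [AddCommGroup A] [Module E A] [AddCommGroup B] [Module E B]

lemma prod_pow (a : Module.End E A) (b : Module.End E B) (k : ℕ) (x : A) (y : B) :
    ((LinearMap.prodMap a b : Module.End E (A × B)) ^ k) (x, y) = ((a ^ k) x, (b ^ k) y) := by
  induction k generalizing x y with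
  | zero => simp
  | succ k ih =>
    rw [pow_succ, pow_succ, pow_succ, Module.End.mul_apply, Module.End.mul_apply,
      Module.End.mul_apply, LinearMap.prodMap_apply, ih]

lemma prod_maxGen (a : Module.End E A) (b : Module.End E B) (α : E) (x : A) (y : B) :
    (x, y) ∈ Module.End.maxGenEigenspace (LinearMap.prodMap a b) α ↔
      x ∈ a.maxGenEigenspace α ∧ y ∈ b.maxGenEigenspace α := by
  have h1 : (LinearMap.prodMap a b : Module.End E (A × B)) - α • (1 : Module.End E (A × B))
      = LinearMap.prodMap (a - α • (1 : Module.End E A)) (b - α • (1 : Module.End E B)) := by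
    apply LinearMap.ext
    rintro ⟨x, y⟩
    rfl
  rw [Module.End.mem_maxGenEigenspace, Module.End.mem_maxGenEigenspace,
    Module.End.mem_maxGenEigenspace, h1]
  constructor
  · rintro ⟨k, hk⟩
    rw [prod_pow, Prod.mk_eq_zero] at hk
    exact ⟨⟨k, hk.1⟩, ⟨k, hk.2⟩⟩
  · rintro ⟨⟨k, hk⟩, ⟨l, hl⟩⟩
    refine ⟨k + l, ?_⟩
    rw [prod_pow, Prod.mk_eq_zero]
    constructor
    · rw [add_comm, pow_add, Module.End.mul_apply, hk, map_zero]
    · rw [pow_add, Module.End.mul_apply, hl, map_zero]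

lemma prod_eigen (a : Module.End E A) (b : Module.End E B) (α : E) (x : A) (y : B) :
    (x, y) ∈ Module.End.eigenspace (LinearMap.prodMap a b) α ↔
      x ∈ a.eigenspace α ∧ y ∈ b.eigenspace α := by
  rw [Module.End.mem_eigenspace_iff, Module.End.mem_eigenspace_iff, Module.End.mem_eigenspace_iff,
    LinearMap.prodMap_apply, Prod.smul_mk, Prod.mk.injEq]

end

section
variable {E : Type} [Field E] (D : Datum E) (Y : Factor E)

lemma mem_gen (α : E) (x : D.V ⊗[E] Y.Y₀) (y : D.W ⊗[E] Y.Y₁) :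
    ((x, y) : Prd D Y) ∈ genSpace D Y α ↔
      x ∈ Module.End.maxGenEigenspace (TensorProduct.map D.φ Y.Ψ₀) α ∧
      y ∈ Module.End.maxGenEigenspace (TensorProduct.map D.ψ Y.Ψ₁) α :=
  prod_maxGen (TensorProduct.map D.φ Y.Ψ₀) (TensorProduct.map D.ψ Y.Ψ₁) α x y

lemma mem_eig (α : E) (x : D.V ⊗[E] Y.Y₀) (y : D.W ⊗[E] Y.Y₁) :
    ((x, y) : Prd D Y) ∈ eigSpace D Y α ↔
      x ∈ Module.End.eigenspace (TensorProduct.map D.φ Y.Ψ₀) α ∧
      y ∈ Module.End.eigenspace (TensorProduct.map D.ψ Y.Ψ₁) α :=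
  prod_eigen (TensorProduct.map D.φ Y.Ψ₀) (TensorProduct.map D.ψ Y.Ψ₁) α x y

lemma frob_pow (n : ℕ) (x : D.V ⊗[E] Y.Y₀) (y : D.W ⊗[E] Y.Y₁) :
    (prodFrob D Y ^ n) ((x, y) : Prd D Y)
      = (((TensorProduct.map D.φ Y.Ψ₀ ^ n : Module.End E (D.V ⊗[E] Y.Y₀)) x,
        (TensorProduct.map D.ψ Y.Ψ₁ ^ n : Module.End E (D.W ⊗[E] Y.Y₁)) y) : Prd D Y) :=
  prod_pow (TensorProduct.map D.φ Y.Ψ₀) (TensorProduct.map D.ψ Y.Ψ₁) n x y

end

end Pool.Agent.Y134.TA
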